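import Pool.Agent.Helper88.GM.Goals

/-!
# Packet GL: the density of the roughness at few points
-/

set_option autoImplicit false

open Finset

open scoped Classical

namespace Pool.Agent.Helper31.GM

open Pool.Agent.Helper88.PP (pr om)
open Pool.Agent.Helper88.RR (gg)
open Pool.Agent.Helper88.GM (gB StmtGL StmtGU StmtGW)

lemma mem_pr31 {y z p : ℕ} (h : p ∈ pr y z) : y < p ∧ p ≤ z ∧ p.Prime := by
  have h1 := Finset.mem_filter.1 h
  have h2 := Finset.mem_Ioc.1 h1.1
  exact ⟨h2.1, h2.2, h1.2⟩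

/-- number of residues -/
noncomputable def nu (B : Finset ℕ) (p : ℕ) : ℕ := (B.image (fun i => i % p)).card

lemma nu_le (B : Finset ℕ) (p : ℕ) : nu B p ≤ B.card := Finset.card_image_le

lemma gB_def (y z : ℕ) (B : Finset ℕ) : gB y z B = ∏ p ∈ pr y z, (1 - (nu B p : ℝ) / p) := rfl

lemma nu_div {y z p : ℕ} (hp : p ∈ pr y z) {B : Finset ℕ} (h4 : 4 * B.card ≤ y) :
    0 ≤ (nu B p : ℝ) / p ∧ (nu B p : ℝ) / p ≤ 1 / 4 := by
  have h := mem_pr31 hp
  have hp0 : (0 : ℝ) < p := by exact_mod_cast h.2.2.pos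
  refine ⟨by positivity, ?_⟩
  rw [div_le_iff₀ hp0]
  have h1 : 4 * nu B p ≤ p := by
    have := nu_le B p
    omega
  have h2 : (4 : ℝ) * nu B p ≤ p := by exact_mod_cast h1
  linarith

lemma few_primes {y z d : ℕ} (hd0 : 0 < d) (hdz : d ≤ z) :
    (((pr y z).filter (fun p => p ∣ d)).card : ℝ) * Real.log 2 ≤ Real.log z := by
  set S := (pr y z).filter (fun p => p ∣ d) with hS
  have hpr : ∀ p ∈ S, p.Prime := fun p hp => (mem_pr31 (Finset.mem_filter.1 hp).1).2.2
  have hdiv : ∏ p ∈ S, p ∣ d :=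
    Finset.prod_primes_dvd d (fun p hp => (hpr p hp).prime) fun p hp => (Finset.mem_filter.1 hp).2
  have h1 : 2 ^ S.card ≤ ∏ p ∈ S, p := by
    rw [← Finset.prod_const]
    exact Finset.prod_le_prod' fun p hp => (hpr p hp).two_le
  have h2 : 2 ^ S.card ≤ z := (h1.trans (Nat.le_of_dvd hd0 hdiv)).trans hdz
  have h3 : ((2 : ℝ)) ^ S.card ≤ z := by exact_mod_cast h2
  have h4 := Real.log_le_log (by positivity) h3
  rwa [Real.log_pow] at h4

/-- the number of common residues -/
noncomputable def cc (B B' : Finset ℕ) (p : ℕ) : ℕ :=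
  ((B.image (fun i => i % p)) ∩ (B'.image (fun i => i % p))).card

lemma nu_union (B B' : Finset ℕ) (p : ℕ) : nu (B ∪ B') p + cc B B' p = nu B p + nu B' p := by
  unfold nu cc
  rw [Finset.image_union]
  exact Finset.card_union_add_card_inter _ _

lemma cc_le (B B' : Finset ℕ) (p : ℕ) :
    cc B B' p ≤ ((B ×ˢ B').filter (fun q => q.1 % p = q.2 % p)).card := by
  unfold cc
  have : (B.image (fun i => i % p)) ∩ (B'.image (fun i => i % p)) ⊆
      ((B ×ˢ B').filter (fun q => q.1 % p = q.2 % p)).image (fun q => q.1 % p) := by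
    intro r hr
    obtain ⟨h1, h2⟩ := Finset.mem_inter.1 hr
    obtain ⟨i, hi, rfl⟩ := Finset.mem_image.1 h1
    obtain ⟨j, hj, he⟩ := Finset.mem_image.1 h2
    exact Finset.mem_image.2 ⟨(i, j), Finset.mem_filter.2 ⟨Finset.mk_mem_product hi hj, he.symm⟩, rfl⟩
  exact (Finset.card_le_card this).trans Finset.card_image_le

lemma sum_cc {y z : ℕ} {B B' : Finset ℕ} (hB : B ⊆ Icc 1 z) (hB' : B' ⊆ Icc 1 z)
    (hd : Disjoint B B') :
    (∑ p ∈ pr y z, (cc B B' p : ℝ)) * Real.log 2 ≤ (B.card : ℝ) * B'.card * Real.log z := by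
  have h1 : ∑ p ∈ pr y z, cc B B' p ≤
      ∑ q ∈ B ×ˢ B', ((pr y z).filter (fun p => q.1 % p = q.2 % p)).card := by
    calc ∑ p ∈ pr y z, cc B B' p
        ≤ ∑ p ∈ pr y z, ((B ×ˢ B').filter (fun q => q.1 % p = q.2 % p)).card :=
          Finset.sum_le_sum fun p _ => cc_le B B' p
      _ = ∑ q ∈ B ×ˢ B', ((pr y z).filter (fun p => q.1 % p = q.2 % p)).card := by
          simp only [Finset.card_filter]
          rw [Finset.sum_comm]
  have h2 : ∀ q ∈ B ×ˢ B', (((pr y z).filter (fun p => q.1 % p = q.2 % p)).card : ℝ) * Real.log 2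
      ≤ Real.log z := by
    intro q hq
    obtain ⟨hi, hj⟩ := Finset.mem_product.1 hq
    have hne : q.1 ≠ q.2 := fun h => (Finset.disjoint_left.1 hd hi) (h ▸ hj)
    have hi' := Finset.mem_Icc.1 (hB hi)
    have hj' := Finset.mem_Icc.1 (hB' hj)
    set d := (q.1 - q.2) + (q.2 - q.1) with hdd
    have hd0 : 0 < d := by omega
    have hdz : d ≤ z := by omega
    have hsub : (pr y z).filter (fun p => q.1 % p = q.2 % p) ⊆ (pr y z).filter (fun p => p ∣ d) := by
      intro p hp
      obtain ⟨hp1, hp2⟩ := Finset.mem_filter.1 hp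
      refine Finset.mem_filter.2 ⟨hp1, ?_⟩
      exact Nat.dvd_add (Nat.dvd_of_mod_eq_zero (Nat.sub_mod_eq_zero_of_mod_eq hp2))
        (Nat.dvd_of_mod_eq_zero (Nat.sub_mod_eq_zero_of_mod_eq hp2.symm))
    have h3 : (((pr y z).filter (fun p => q.1 % p = q.2 % p)).card : ℝ) ≤
        (((pr y z).filter (fun p => p ∣ d)).card : ℝ) := by
      exact_mod_cast Finset.card_le_card hsub
    exact (mul_le_mul_of_nonneg_right h3 (Real.log_nonneg (by norm_num))).trans
      (few_primes hd0 hdz)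
  have h1' : (∑ p ∈ pr y z, (cc B B' p : ℝ)) ≤
      ∑ q ∈ B ×ˢ B', (((pr y z).filter (fun p => q.1 % p = q.2 % p)).card : ℝ) := by
    exact_mod_cast h1
  calc (∑ p ∈ pr y z, (cc B B' p : ℝ)) * Real.log 2
      ≤ (∑ q ∈ B ×ˢ B', (((pr y z).filter (fun p => q.1 % p = q.2 % p)).card : ℝ)) * Real.log 2 :=
        mul_le_mul_of_nonneg_right h1' (Real.log_nonneg (by norm_num))
    _ = ∑ q ∈ B ×ˢ B', (((pr y z).filter (fun p => q.1 % p = q.2 % p)).card : ℝ) * Real.log 2 := by
        rw [Finset.sum_mul]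
    _ ≤ ∑ q ∈ B ×ˢ B', Real.log z := Finset.sum_le_sum h2
    _ = (B.card : ℝ) * B'.card * Real.log z := by
        rw [Finset.sum_const, Finset.card_product, nsmul_eq_mul]
        push_cast
        ring

theorem gl : StmtGL := by
  intro y z B B' hy hB hB' hd h4 h4'
  rw [gB_def, gB_def, gB_def, ← Finset.prod_mul_distrib]
  have hlz : 0 ≤ Real.log z := Real.log_natCast_nonneg z
  have hy0 : (0 : ℝ) < y := by exact_mod_cast hy
  -- factor by factor
  have hfac : ∀ p ∈ pr y z, 1 - (nu (B ∪ B') p : ℝ) / p ≤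
      ((1 - (nu B p : ℝ) / p) * (1 - (nu B' p : ℝ) / p)) * Real.exp (16 / 9 * ((cc B B' p : ℝ) / p)) := by
    intro p hp
    have hp0 : (0 : ℝ) < p := by exact_mod_cast (mem_pr31 hp).2.2.pos
    obtain ⟨a0, a1⟩ := nu_div hp h4
    obtain ⟨b0, b1⟩ := nu_div hp h4'
    set a := (nu B p : ℝ) / p
    set b := (nu B' p : ℝ) / p
    set c := (cc B B' p : ℝ) / p with hc
    have hc0 : 0 ≤ c := by positivity
    have hu : (nu (B ∪ B') p : ℝ) / p = a + b - c := by
      have h := nu_union B B' p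
      have h' : (nu (B ∪ B') p : ℝ) + cc B B' p = nu B p + nu B' p := by exact_mod_cast h
      have : (nu (B ∪ B') p : ℝ) = nu B p + nu B' p - cc B B' p := by linarith
      rw [this]
      simp only [a, b, hc]
      ring
    rw [hu]
    have h1 : (9 : ℝ) / 16 ≤ (1 - a) * (1 - b) := by nlinarith
    have h2 : 1 - (a + b - c) ≤ ((1 - a) * (1 - b)) * (1 + 16 / 9 * c) := by
      have h3 : c ≤ ((1 - a) * (1 - b)) * (16 / 9 * c) := by nlinarith
      have h5 : 0 ≤ a * b := mul_nonneg a0 b0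
      nlinarith
    refine h2.trans ?_
    apply mul_le_mul_of_nonneg_left _ (by linarith)
    have := Real.add_one_le_exp (16 / 9 * c)
    linarith
  have hnn : ∀ p ∈ pr y z, 0 ≤ 1 - (nu (B ∪ B') p : ℝ) / p := by
    intro p hp
    have hp0 : (0 : ℝ) < p := by exact_mod_cast (mem_pr31 hp).2.2.pos
    have h := mem_pr31 hp
    have h1 : nu (B ∪ B') p ≤ p := by
      have h2 := nu_le (B ∪ B') p
      have h3 := Finset.card_union_le B B'
      omega
    have h2 : (nu (B ∪ B') p : ℝ) ≤ p := by exact_mod_cast h1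
    have : (nu (B ∪ B') p : ℝ) / p ≤ 1 := (div_le_one hp0).2 h2
    linarith
  have h1 := Finset.prod_le_prod hnn hfac
  rw [Finset.prod_mul_distrib, ← Real.exp_sum] at h1
  refine h1.trans ?_
  apply mul_le_mul_of_nonneg_left
  · apply Real.exp_le_exp.2
    -- the sum
    have h2 : ∑ p ∈ pr y z, (16 : ℝ) / 9 * ((cc B B' p : ℝ) / p) ≤
        16 / 9 * ((∑ p ∈ pr y z, (cc B B' p : ℝ)) / y) := by
      rw [← Finset.mul_sum, Finset.sum_div]
      apply mul_le_mul_of_nonneg_left _ (by norm_num)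
      apply Finset.sum_le_sum
      intro p hp
      have h3 : (y : ℝ) ≤ p := by exact_mod_cast (mem_pr31 hp).1.le
      exact div_le_div_of_nonneg_left (by positivity) hy0 h3
    refine h2.trans ?_
    have h3 := sum_cc (y := y) hB hB' hd
    set s := ∑ p ∈ pr y z, (cc B B' p : ℝ) with hs
    have hs0 : 0 ≤ s := Finset.sum_nonneg fun p _ => by positivity
    have hl2 : (0.6931471803 : ℝ) < Real.log 2 := Real.log_two_gt_d9
    set T := (B.card : ℝ) * B'.card * Real.log z with hT
    have h4 : 16 / 9 * s ≤ 4 * T := by nlinarith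
    have h5 : 16 / 9 * (s / y) = (16 / 9 * s) / y := by ring
    have h6 : 4 * ((B.card : ℝ) * B'.card) * Real.log z / y = (4 * T) / y := by
      simp only [hT]; ring
    rw [h5, h6]
    exact div_le_div_of_nonneg_right h4 hy0.le
  · apply Finset.prod_nonneg
    intro p hp
    obtain ⟨a0, a1⟩ := nu_div hp h4
    obtain ⟨b0, b1⟩ := nu_div hp h4'
    exact mul_nonneg (by linarith) (by linarith)

lemma gB_nonneg {y z : ℕ} {B : Finset ℕ} (h4 : 4 * B.card ≤ y) : 0 ≤ gB y z B := by
  rw [gB_def]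
  apply Finset.prod_nonneg
  intro p hp
  obtain ⟨a0, a1⟩ := nu_div hp h4
  linarith

lemma gB_le_one {y z : ℕ} {B : Finset ℕ} (h4 : 4 * B.card ≤ y) : gB y z B ≤ 1 := by
  rw [gB_def]
  apply Finset.prod_le_one
  · intro p hp
    obtain ⟨a0, a1⟩ := nu_div hp h4
    linarith
  · intro p hp
    obtain ⟨a0, a1⟩ := nu_div hp h4
    linarith

lemma gB_single (y z i : ℕ) : gB y z {i} = om y z := by
  rw [gB_def]
  unfold om
  apply Finset.prod_congr rfl
  intro p _
  have : nu {i} p = 1 := by simp [nu]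
  rw [this]
  simp

lemma om_nonneg31 (y z : ℕ) : 0 ≤ om y z := by
  unfold om
  apply Finset.prod_nonneg
  intro p hp
  have h := mem_pr31 hp
  have h2 : (1 : ℝ) ≤ p := by exact_mod_cast h.2.2.one_le
  have : 1 / (p : ℝ) ≤ 1 := (div_le_one (by linarith)).2 h2
  linarith

lemma gB_le {y z : ℕ} (hy : 1 ≤ y) : ∀ B : Finset ℕ, B ⊆ Icc 1 z → 4 * B.card ≤ y →
    gB y z B ≤ om y z ^ B.card * Real.exp (2 * (B.card : ℝ) ^ 2 * Real.log z / y) := by
  intro B
  induction B using Finset.induction_on with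
  | empty =>
    intro _ _
    rw [gB_def]
    simp [nu]
  | insert i B hi ih =>
    intro hB h4
    rw [Finset.card_insert_of_notMem hi] at h4
    have hBs : B ⊆ Icc 1 z := (Finset.subset_insert i B).trans hB
    have hi1 : ({i} : Finset ℕ) ⊆ Icc 1 z := by
      intro j hj
      rw [Finset.mem_singleton] at hj
      exact hj ▸ hB (Finset.mem_insert_self i B)
    have h1 := gl y z B {i} hy hBs hi1 (by simpa using hi) (by omega) (by simp; omega)
    have h2 : insert i B = B ∪ {i} := by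
      ext j; simp [or_comm]
    rw [Finset.card_insert_of_notMem hi]
    rw [h2]
    refine h1.trans ?_
    rw [gB_single]
    have ih' := ih hBs (by omega)
    have hy0 : (0 : ℝ) < y := by exact_mod_cast hy
    have hlz : 0 ≤ Real.log z := Real.log_natCast_nonneg z
    have ho := om_nonneg31 y z
    calc gB y z B * om y z * Real.exp (4 * ((B.card : ℝ) * (({i} : Finset ℕ).card : ℕ)) * Real.log z / y)
        ≤ (om y z ^ B.card * Real.exp (2 * (B.card : ℝ) ^ 2 * Real.log z / y)) * om y z *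
          Real.exp (4 * ((B.card : ℝ) * (({i} : Finset ℕ).card : ℕ)) * Real.log z / y) := by
          apply mul_le_mul_of_nonneg_right _ (Real.exp_pos _).le
          exact mul_le_mul_of_nonneg_right ih' ho
      _ = om y z ^ (B.card + 1) * Real.exp (2 * (B.card : ℝ) ^ 2 * Real.log z / y +
          4 * ((B.card : ℝ) * (({i} : Finset ℕ).card : ℕ)) * Real.log z / y) := by
          rw [Real.exp_add]; ring
      _ ≤ om y z ^ (B.card + 1) * Real.exp (2 * ((B.card + 1 : ℕ) : ℝ) ^ 2 * Real.log z / y) := by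
          apply mul_le_mul_of_nonneg_left _ (pow_nonneg ho _)
          apply Real.exp_le_exp.2
          rw [← add_div]
          apply div_le_div_of_nonneg_right _ hy0.le
          rw [Finset.card_singleton]
          push_cast
          nlinarith

theorem gu : StmtGU := by
  intro y z B hy hB h4 hk
  refine ⟨gB_nonneg h4, gB_le_one h4, ?_⟩
  have h := gB_le hy B hB h4
  have hy0 : (0 : ℝ) < y := by exact_mod_cast hy
  have ho := om_nonneg31 y z
  refine h.trans ?_
  rw [mul_pow, mul_comm ((8 : ℝ) ^ B.card)]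
  apply mul_le_mul_of_nonneg_left _ (pow_nonneg ho _)
  rcases Nat.eq_zero_or_pos B.card with h0 | h0
  · rw [h0]; simp
  · have h1 : 2 * (B.card : ℝ) ^ 2 * Real.log z / y ≤ 2 := by
      rw [div_le_iff₀ hy0]
      linarith
    have h2 : Real.exp 2 ≤ 8 := by
      have h3 := Real.exp_one_lt_d9
      have h4 : Real.exp 2 = Real.exp 1 * Real.exp 1 := by rw [← Real.exp_add]; norm_num
      rw [h4]
      have h5 : 0 < Real.exp 1 := Real.exp_pos 1
      nlinarith
    calc Real.exp (2 * (B.card : ℝ) ^ 2 * Real.log z / y) ≤ Real.exp 2 := Real.exp_le_exp.2 h1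
      _ ≤ 8 := h2
      _ = 8 ^ 1 := by norm_num
      _ ≤ 8 ^ B.card := pow_le_pow_right₀ (by norm_num) h0

theorem gw : StmtGW := by
  intro y z t B hB
  rw [gB_def]
  unfold gg
  apply Finset.prod_congr rfl
  intro p hp
  have hyp := (mem_pr31 hp).1
  have : nu B p = B.card := by
    unfold nu
    apply Finset.card_image_of_injOn
    intro i hi j hj hij
    have hi' := Finset.mem_Icc.1 (hB hi)
    have hj' := Finset.mem_Icc.1 (hB hj)
    simp only at hij
    rcases lt_trichotomy i j with h | h | h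
    · exfalso
      have h1 : p ∣ j - i := Nat.dvd_of_mod_eq_zero (Nat.sub_mod_eq_zero_of_mod_eq hij.symm)
      have := Nat.le_of_dvd (by omega) h1
      omega
    · exact h
    · exfalso
      have h1 : p ∣ i - j := Nat.dvd_of_mod_eq_zero (Nat.sub_mod_eq_zero_of_mod_eq hij)
      have := Nat.le_of_dvd (by omega) h1
      omega
  rw [this]

end Pool.Agent.Helper31.GM
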